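import Pool.Agent.K3h89.SX.Stm
import Pool.Agent.K3h89.SZ.LAR

/-! SX brick LARX: the common prime factors of large size (adapted from `K3h89/SZ/LAR.lean`). -/

set_option autoImplicit false

open Finset Filter Topology

namespace Pool.Agent.K3h73.SX

open Pool.Agent.K3h89.SX
open Pool.Agent.K3h89.SZ (CF lar_cnt lar_union)

/-- the product of the three integers -/
def larN (n h : ℕ) : ℤ := (h : ℤ) * ((n : ℤ) - h) * ((n : ℤ) + h)

lemma larN_bd {n h H : ℕ} (h1 : 1 ≤ h) (hA : 2 * (h : ℝ) < H) (hn : H ≤ n)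
    (hn' : n ≤ H ^ 2) (hH : 20 ≤ H) :
    larN n h ≠ 0 ∧ |((larN n h : ℤ) : ℝ)| ≤ (H : ℝ) ^ 8 := by
  have h1' : (1 : ℝ) ≤ h := by exact_mod_cast h1
  have hn1 : (H : ℝ) ≤ n := by exact_mod_cast hn
  have hn2 : (n : ℝ) ≤ (H : ℝ) ^ 2 := by exact_mod_cast hn'
  have hH1 : (20 : ℝ) ≤ H := by exact_mod_cast hH
  have hHH : (H : ℝ) ≤ (H : ℝ) ^ 2 := by nlinarith
  have a2 : 0 < (n : ℝ) - h := by linarith
  have a3 : 0 < (n : ℝ) + h := by linarith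
  have b1 : (h : ℝ) ≤ H := by linarith
  have b2 : (n : ℝ) - h ≤ (H : ℝ) ^ 2 := by linarith
  have b3 : (n : ℝ) + h ≤ 2 * (H : ℝ) ^ 2 := by linarith
  have hcast : ((larN n h : ℤ) : ℝ) = h * ((n : ℝ) - h) * ((n : ℝ) + h) := by
    simp only [larN]
    push_cast
    ring
  have hpos : 0 < h * ((n : ℝ) - h) * ((n : ℝ) + h) := by positivity
  constructor
  · intro h0
    rw [h0] at hcast
    rw [← hcast] at hpos
    simp at hpos
  · rw [hcast, abs_of_pos hpos]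
    have c1 : (h : ℝ) * ((n : ℝ) - h) ≤ H * (H : ℝ) ^ 2 := mul_le_mul b1 b2 a2.le (by linarith)
    have c2 : (h : ℝ) * ((n : ℝ) - h) * ((n : ℝ) + h) ≤ H * (H : ℝ) ^ 2 * (2 * (H : ℝ) ^ 2) :=
      mul_le_mul c1 b3 a3.le (by positivity)
    have c4 : (H : ℝ) * (H : ℝ) ^ 2 * (2 * (H : ℝ) ^ 2) = 2 * (H : ℝ) ^ 5 := by ring
    have c5 : (2 : ℝ) ≤ (H : ℝ) ^ 3 := by
      have : (20 : ℝ) ^ 3 ≤ (H : ℝ) ^ 3 := pow_le_pow_left₀ (by norm_num) hH1 3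
      linarith [this, (by norm_num : (2 : ℝ) ≤ (20 : ℝ) ^ 3)]
    calc (h : ℝ) * ((n : ℝ) - h) * ((n : ℝ) + h) ≤ 2 * (H : ℝ) ^ 5 := by rw [← c4]; exact c2
      _ ≤ (H : ℝ) ^ 3 * (H : ℝ) ^ 5 := mul_le_mul_of_nonneg_right c5 (by positivity)
      _ = (H : ℝ) ^ 8 := by ring

theorem larX (hS : S_SYSX) : S_LARX := by
  classical
  intro B η hη
  have hcast : Tendsto (fun H : ℕ => (H : ℝ)) atTop atTop := tendsto_natCast_atTop_atTop
  have hlog : Tendsto (fun H : ℕ => Real.log (H : ℝ)) atTop atTop :=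
    Real.tendsto_log_atTop.comp hcast
  have hsq : Tendsto (fun H : ℕ => √(Real.log (H : ℝ))) atTop atTop :=
    Real.tendsto_sqrt_atTop.comp hlog
  have e1 : ∀ᶠ H : ℕ in atTop, 2 * Real.log H ^ B < H := by
    have h1 : ∀ᶠ x : ℝ in atTop, ‖Real.log x ^ B‖ ≤ (1 / 4 : ℝ) * ‖id x‖ :=
      (Real.isLittleO_pow_log_id_atTop (n := B)).def (by positivity)
    filter_upwards [hcast.eventually h1, hcast.eventually (eventually_gt_atTop 0)] with H h2 h3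
    have h3' : (0 : ℝ) < H := h3
    rw [id, Real.norm_of_nonneg h3'.le] at h2
    have h4 : Real.log (H : ℝ) ^ B ≤ 1 / 4 * H := le_trans (Real.le_norm_self _) h2
    linarith
  have e2 : ∀ᶠ H : ℕ in atTop,
      √(Real.log (H : ℝ)) ^ (2 * B + 1) * Real.exp (-√(Real.log (H : ℝ))) < η / 8 := by
    have h1 := (Real.tendsto_pow_mul_exp_neg_atTop_nhds_zero (2 * B + 1)).comp hsq
    exact h1.eventually (gt_mem_nhds (by positivity))
  have e3 : ∀ᶠ H : ℕ in atTop, (4 : ℝ) ≤ Real.log (H : ℝ) := hlog.eventually_ge_atTop 4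
  obtain ⟨H₀, hH₀⟩ := eventually_atTop.1 (e1.and (e2.and (e3.and (eventually_ge_atTop 20))))
  refine ⟨H₀, fun H hH n hn hn' => ?_⟩
  obtain ⟨f1, f2, f3, f4⟩ := hH₀ H hH
  set L : ℝ := Real.log (H : ℝ) with hL
  have hL0 : 0 ≤ L := by linarith
  set E : ℝ := Real.exp (√L) with hE
  have hu : 0 < √L := Real.sqrt_pos.2 (by linarith)
  have hE0 : 0 < E := Real.exp_pos _
  set T : ℕ → Finset ℕ := fun h => (Icc 1 H).filter (fun p : ℕ => p.Prime ∧ E ≤ p ∧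
    (p : ℤ) ∣ larN n h) with hT
  -- the size of `T h`
  have hcard : ∀ h ∈ Icc 1 ⌊L ^ B⌋₊, ((T h).card : ℝ) ≤ 8 * √L := by
    intro h hh
    obtain ⟨hh1, hh2⟩ := Finset.mem_Icc.1 hh
    have hhL : (h : ℝ) ≤ L ^ B := (Nat.le_floor_iff (by positivity)).1 hh2
    have hhA : 2 * (h : ℝ) < H := by linarith
    obtain ⟨g1, g2⟩ := larN_bd hh1 hhA hn hn' f4
    have g3 := lar_cnt g1 hE0.le g2 (T h) fun p hp => (Finset.mem_filter.1 hp).2
    have g4 := Real.log_le_log (pow_pos hE0 _) g3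
    rw [Real.log_pow, Real.log_pow, hE, Real.log_exp, ← hL] at g4
    have g5 : L = √L * √L := (Real.mul_self_sqrt hL0).symm
    have g6 : ((T h).card : ℝ) * √L ≤ (8 * √L) * √L := by
      rw [mul_assoc, ← g5]
      exact_mod_cast g4
    exact le_of_mul_le_mul_right g6 hu
  -- the sum
  have hsub : ((Icc 1 H).filter (fun p : ℕ => p.Prime ∧ Real.exp (√(Real.log H)) ≤ p ∧
      ∃ h : ℕ, 1 ≤ h ∧ (h : ℝ) ≤ Real.log H ^ B ∧ CF (Fl n) h p)) ⊆
      (Icc 1 ⌊L ^ B⌋₊).biUnion T := by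
    intro p hp
    obtain ⟨hp1, hp2, hp3, h, hh1, hh2, hh3⟩ := Finset.mem_filter.1 hp
    refine Finset.mem_biUnion.2 ⟨h, Finset.mem_Icc.2 ⟨hh1, Nat.le_floor hh2⟩,
      Finset.mem_filter.2 ⟨hp1, hp2, hp3, ?_⟩⟩
    unfold larN
    rcases (hS n).2 h p hp2 hh3 with h1 | h1 | h1
    · have h2 : (p : ℤ) ∣ (h : ℤ) := Int.natCast_dvd_natCast.2 h1
      exact (h2.mul_right _).mul_right _
    · exact (h1.mul_left _).mul_right _
    · exact h1.mul_left _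
  have hin : ∀ h ∈ Icc 1 ⌊L ^ B⌋₊, ∑ p ∈ T h, (1 : ℝ) / p ≤ 8 * √L * Real.exp (-√L) := by
    intro h hh
    have h1 : ∀ p ∈ T h, (1 : ℝ) / p ≤ Real.exp (-√L) := by
      intro p hp
      obtain ⟨-, -, h2, -⟩ := Finset.mem_filter.1 hp
      rw [Real.exp_neg, ← hE, one_div]
      exact inv_anti₀ hE0 h2
    calc ∑ p ∈ T h, (1 : ℝ) / p ≤ ∑ _p ∈ T h, Real.exp (-√L) := Finset.sum_le_sum h1
      _ = (T h).card * Real.exp (-√L) := by rw [Finset.sum_const, nsmul_eq_mul]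
      _ ≤ 8 * √L * Real.exp (-√L) :=
        mul_le_mul_of_nonneg_right (hcard h hh) (Real.exp_pos _).le
  calc _ ≤ ∑ p ∈ (Icc 1 ⌊L ^ B⌋₊).biUnion T, (1 : ℝ) / p :=
        Finset.sum_le_sum_of_subset_of_nonneg hsub fun _ _ _ => by positivity
    _ ≤ ∑ h ∈ Icc 1 ⌊L ^ B⌋₊, ∑ p ∈ T h, (1 : ℝ) / p :=
        lar_union _ _ _ fun _ => by positivity
    _ ≤ ∑ _h ∈ Icc 1 ⌊L ^ B⌋₊, 8 * √L * Real.exp (-√L) := Finset.sum_le_sum hin
    _ = (⌊L ^ B⌋₊ : ℝ) * (8 * √L * Real.exp (-√L)) := by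
        rw [Finset.sum_const, nsmul_eq_mul, Nat.card_Icc, Nat.add_sub_cancel]
    _ ≤ L ^ B * (8 * √L * Real.exp (-√L)) :=
        mul_le_mul_of_nonneg_right (Nat.floor_le (by positivity)) (by positivity)
    _ = 8 * (√L ^ (2 * B + 1) * Real.exp (-√L)) := by
        have h1 : √L ^ (2 * B + 1) = L ^ B * √L := by
          rw [pow_succ, pow_mul, Real.sq_sqrt hL0]
        rw [h1]
        ring
    _ ≤ η := by linarith

end Pool.Agent.K3h73.SX
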