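import Pool.Agent.K3h89.SX.Stm
import Pool.Agent.K3h89.SZ.SYSQ

/-! SX brick SYSX: the systems `x (n - x)` and their common prime factors. -/

set_option autoImplicit false

open Finset

namespace Pool.Agent.K3h73.SX

open Pool.Agent.K3h89.SX
open Pool.Agent.Y677.RSZ (rt)

lemma fl_int {n p : ℕ} (hp : p.Prime) {x : ℤ} (h : (p : ℤ) ∣ Fl n x) :
    (p : ℤ) ∣ x ∨ (p : ℤ) ∣ (n : ℤ) - x :=
  (Nat.prime_iff_prime_int.1 hp).dvd_or_dvd h

lemma fl_rt (n : ℕ) {p : ℕ} (hp : p.Prime) : rt (Fl n) p ≤ 2 := by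
  unfold rt
  refine le_trans (Finset.card_le_card (t := {0, n % p}) ?_) Finset.card_le_two
  intro r hr
  obtain ⟨hr1, hr2⟩ := Finset.mem_filter.1 hr
  rw [Finset.mem_range] at hr1
  rw [Finset.mem_insert, Finset.mem_singleton]
  rcases fl_int hp hr2 with h | h
  · left
    exact Nat.eq_zero_of_dvd_of_lt (Int.natCast_dvd_natCast.1 h) hr1
  · right
    have h1 : (r : ℤ) ≡ n [ZMOD p] := (Int.modEq_iff_dvd).2 h
    have h2 : r ≡ n [MOD p] := (Int.natCast_modEq_iff).1 h1
    have h3 : r % p = n % p := h2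
    rw [Nat.mod_eq_of_lt hr1] at h3
    exact h3

theorem sysX : S_SYSX := by
  intro n
  refine ⟨fun hn => ⟨?_, ?_⟩, ?_⟩
  · intro p hp x
    have h1 : (p : ℤ) ∣ Fl n (x + p) - Fl n x := by
      refine ⟨(n : ℤ) - 2 * x - p, ?_⟩
      unfold Fl
      ring
    exact Int.dvd_iff_dvd_of_dvd_sub h1
  · intro p hp
    have h3 := fl_rt n hp
    refine ⟨h3.trans (by norm_num), ?_⟩
    by_cases h5 : 3 ≤ p
    · omega
    have hp2 := hp.two_le
    obtain rfl : p = 2 := by omega
    refine Pool.Agent.K3h89.SZ.sysq_lt (r := 1) (by norm_num) ?_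
    unfold Fl
    intro h
    obtain ⟨w, hw⟩ := hn
    push_cast at h
    have hn' : (n : ℤ) = w + w := by exact_mod_cast hw
    rw [hn'] at h
    obtain ⟨z, hz⟩ := h
    omega
  · rintro h p hp ⟨x, hx, hy⟩
    rcases fl_int hp hx with h1 | h1 <;> rcases fl_int hp hy with h2 | h2
    · left
      have h3 : (p : ℤ) ∣ (h : ℤ) := by
        have := dvd_sub h2 h1
        have e : x + (h : ℤ) - x = h := by ring
        rwa [e] at this
      exact Int.natCast_dvd_natCast.1 h3
    · right; left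
      have h3 : (n : ℤ) - (h : ℤ) = ((n : ℤ) - (x + h)) + x := by ring
      rw [h3]
      exact dvd_add h2 h1
    · right; right
      have h3 : (n : ℤ) + (h : ℤ) = ((n : ℤ) - x) + (x + h) := by ring
      rw [h3]
      exact dvd_add h1 h2
    · left
      have h3 : (p : ℤ) ∣ (h : ℤ) := by
        have := dvd_sub h1 h2
        have e : (n : ℤ) - x - ((n : ℤ) - (x + (h : ℤ))) = h := by ring
        rwa [e] at this
      exact Int.natCast_dvd_natCast.1 h3

end Pool.Agent.K3h73.SX
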